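import Pool.Agent.U980.PI.PeakK

/-!
# Two-ended initial data: energy condition on a cone, or on a single ray

Initial data `(g, h)` on `ℝ³ ∖ {0}` (two ends, at infinity and at the origin), `g = φ(|x|)⁴ δ`
spherically symmetric and `h` an arbitrary symmetric tensor field, WITHOUT any symmetry. Let `K` be
any nonempty closed set of directions: one direction, a meridian, the whole sphere.

The dominant energy condition is assumed only on the cone over `K`. On a centred sphere `S` with
unit normal `ν` let `β = h(ν, ·)` and let `h°` be the trace-free part of `h` on `S`. Suppose that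
for every centred sphere `S` with `|tr_S h| ≤ H` at its points in the directions of `K` one has
`(tr_S h) div_S β + H (2 |β|² + |h°|²) / 2 ≥ 0` at ONE point of `S` in a direction of `K` at which
`|tr_S h|` is maximal among these directions. (For instance: `div_S β = 0` at that point.)

Then the Penrose inequality `m ≥ √(A / 16 π)` holds for the end at infinity, `m` its ADM energy and
`A` the infimum of the areas of the centred spheres (which is at least the infimum over all surfaces
separating the ends). In particular, if `K` is one direction: the dominant energy condition along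
one ray, and `(tr_S h) div_S β + H (2 |β|² + |h°|²) / 2 ≥ 0` at the untrapped points of this ray, are
enough. By the inversion `x ↦ x / |x|²` the origin may be chosen as the special end.
-/

set_option autoImplicit false

namespace Pool.Agent.Results.MP_ede089_mp.ConeOfDirections

open Pool.Agent.K4H63.PI Filter Topology

/-- The infimum of the areas of the centred spheres, which separate the two ends. -/
noncomputable def separatingArea (φ : ℝ → ℝ) : ℝ := sInf (sphereArea φ '' Set.Ioi 0)

theorem result (φ : ℝ → ℝ) (h : E → Matrix (Fin 3) (Fin 3) ℝ) (m : ℝ)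
    -- `φ` is positive and `C²` on `(0, ∞)`; `h` is symmetric and `C¹` on `ℝ³ ∖ {0}`
    (hφ : Good φ) (hh : Tensor h)
    -- the end at infinity is asymptotically flat with ADM energy `m`
    (flat : FlatEnd φ m) (decay : Decay h)
    -- the other end: the area radius tends to infinity at the origin
    (second : Tendsto (fun r => (φ r) ^ 2 * r) (𝓝[>] 0) atTop)
    -- a closed set of directions
    (K : Set (Metric.sphere (0 : E) 1)) (closed : IsClosed K) (nonempty : K.Nonempty)
    -- the dominant energy condition on the cone over `K`
    (dec : ∀ r : ℝ, 0 < r → ∀ w ∈ K,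
      momentumNorm (metric φ) h (r • (w : E)) ≤ energy (metric φ) h (r • (w : E)))
    -- the condition at one point of each centred sphere
    (cond : ∀ r : ℝ, 0 < r → (∀ w ∈ K, |trS φ h (r • (w : E))| ≤ sphereH φ r) →
      ∃ w ∈ K, (∀ v ∈ K, |trS φ h (r • (v : E))| ≤ |trS φ h (r • (w : E))|) ∧
        0 ≤ trS φ h (r • (w : E)) * divS φ h (r • (w : E)) +
          sphereH φ r * transS φ h (r • (w : E)) / 2) :
    Real.sqrt (separatingArea φ / (16 * Real.pi)) ≤ m := by
  obtain ⟨r₁, h1, h2⟩ := exists_neg hφ second
  have hp := hφ.pos r₁ h1
  have hH : ∀ r : ℝ, 0 < r → ∀ w : Metric.sphere (0 : E) 1,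
      meanCurv φ (r • (w : E)) = sphereH φ r := by
    intro r hr w
    unfold meanCurv sphereH
    rw [ray_norm (sphere_norm w) hr]
  obtain ⟨r₀, h3, h4⟩ := Pool.Agent.U980.PI.peakK_theorem hφ hh flat decay closed.isCompact
    nonempty h1 (fun r hr w hw => dec r (h1.trans_le hr) w hw)
    (fun r hr hu => by
      obtain ⟨w, hw, c1, c2⟩ := cond r (h1.trans_le hr) hu
      exact ⟨w, hw, c1, by rw [hH r (h1.trans_le hr) w]; exact c2⟩)
    (by
      obtain ⟨w, hw⟩ := nonempty
      refine ⟨w, hw, le_trans ?_ (abs_nonneg _)⟩
      rw [sphereH_eq hφ h1]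
      exact div_nonpos_of_nonpos_of_nonneg (by linarith) (by positivity))
  have h5 : separatingArea φ ≤ sphereArea φ r₀ := by
    refine csInf_le ⟨0, ?_⟩ ⟨r₀, h1.trans_le h3, rfl⟩
    rintro _ ⟨r, _, rfl⟩
    unfold sphereArea
    positivity
  have hpi := Real.pi_pos
  exact (Real.sqrt_le_sqrt (div_le_div_of_nonneg_right h5 (by positivity))).trans h4

end Pool.Agent.Results.MP_ede089_mp.ConeOfDirections
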