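import Pool.Agent.K4H63.PI.Peak
import Pool.Agent.K4H63.PI.Main1
import Pool.Agent.U980.PI.Final

/-!
# Two-ended initial data with linear momentum: the Penrose inequality for the rest mass

Initial data `(g, h)` on `ℝ³ ∖ {0}` (two ends, at infinity and at the origin), `g = φ(|x|)⁴ δ`
spherically symmetric and `h` a symmetric tensor field without any symmetry, satisfying the dominant
energy condition, with ADM energy `E` and ARBITRARY ADM linear momentum `P` at infinity. Suppose that
`tr_S h` is constant on every centred sphere `S` on which `|tr_S h| ≤ H` everywhere (nothing is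
assumed on `h(ν, ν)`, on the mixed part `h(ν, ·)` and on the trace-free tangential part of `h`). Then
`E ≥ √(A / 16 π + |P|²)`, `A` the infimum of the areas of the centred spheres (which is at least the
infimum over all surfaces separating the ends).

So `E ≥ √(A / 16 π)`, the inequality of the question, has the remainder `|P|²` under the root, and
the Penrose inequality `√(A / 16 π) ≤ √(E² - |P|²)` holds for the rest mass. By the inversion
`x ↦ x / |x|²` the origin may be chosen as the special end.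
-/

set_option autoImplicit false

namespace Pool.Agent.Results.MP_ede089_mp.RestMassTwoEnds

open Pool.Agent.K4H63.PI Filter Topology

/-- The infimum of the areas of the centred spheres, which separate the two ends. -/
noncomputable def separatingArea (φ : ℝ → ℝ) : ℝ := sInf (sphereArea φ '' Set.Ioi 0)

/-- The ADM momentum integral `(8 π)⁻¹ ∫_{|x| = r} (h_{ij} - (tr h) g_{ij}) ν^j dA`. -/
noncomputable def momentumFlux (G h : E → Matrix (Fin 3) (Fin 3) ℝ) (i : Fin 3) (r : ℝ) : ℝ :=
  (8 * Real.pi)⁻¹ * (r ^ 2 * ∫ ω, ∑ j, (h (r • (ω : E)) - trg G h (r • (ω : E)) •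
    G (r • (ω : E))) i j * (ω : E) j ∂sph)

/-- `F` is constant on the centred sphere of radius `r`. -/
def ConstOn (F : E → ℝ) (r : ℝ) : Prop := ∃ c, ∀ w : E, ‖w‖ = 1 → F (r • w) = c

theorem momentumFlux_eq {φ : ℝ → ℝ} (hφ : Good φ) {h : E → Matrix (Fin 3) (Fin 3) ℝ}
    (i : Fin 3) {r : ℝ} (hr : 0 < r) :
    momentumFlux (metric φ) h i r =
      r ^ 2 * sphAvg (fun x => mixed h i x - qq h x * un i x) r / 2 := by
  have h1 : ∀ ω : Metric.sphere (0 : E) 1,
      ∑ j, (h (r • (ω : E)) - trg (metric φ) h (r • (ω : E)) • metric φ (r • (ω : E))) i j *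
        (ω : E) j = (fun x => mixed h i x - qq h x * un i x) (r • (ω : E)) := by
    intro ω
    have hω := sphere_norm ω
    have hn := ray_norm hω hr
    have h0 : φ ‖r • (ω : E)‖ ≠ 0 := by rw [hn]; exact (hφ.pos r hr).ne'
    have h2 : ∀ j, (ω : E) j = (r • (ω : E)) j / ‖r • (ω : E)‖ := by
      intro j
      rw [hn, PiLp.smul_apply, smul_eq_mul]
      field_simp
    simp only [trace_reversed h h0]
    have h3 : ∑ j, (h (r • (ω : E)) i j - tr0 h (r • (ω : E)) * kd i j) * (ω : E) j =
        ∑ j, h (r • (ω : E)) i j * ((r • (ω : E)) j / ‖r • (ω : E)‖) -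
          tr0 h (r • (ω : E)) * ((r • (ω : E)) i / ‖r • (ω : E)‖) := by
      simp only [sub_mul, Finset.sum_sub_distrib]
      congr 1
      · exact Finset.sum_congr rfl fun j _ => by rw [← h2 j]
      · rw [Finset.sum_eq_single i (fun j _ hij => by simp [kd, Ne.symm hij]) (by simp), ← h2 i]
        simp [kd]
    rw [h3]
    unfold mixed un qq
    ring
  unfold momentumFlux sphAvg
  simp only [h1]
  have := Real.pi_ne_zero
  field_simp
  ring

theorem result (φ : ℝ → ℝ) (h : E → Matrix (Fin 3) (Fin 3) ℝ) (m : ℝ) (P : Fin 3 → ℝ)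
    -- `φ` is positive and `C²` on `(0, ∞)`; `h` is symmetric and `C¹` on `ℝ³ ∖ {0}`
    (hφ : Good φ) (hh : Tensor h)
    -- the end at infinity is asymptotically flat with ADM energy `m` and ADM momentum `P`
    (flat : FlatEnd φ m) (decay : Decay h)
    (mom : ∀ i, Tendsto (momentumFlux (metric φ) h i) atTop (𝓝 (P i)))
    -- the other end: the area radius tends to infinity at the origin
    (second : Tendsto (fun r => (φ r) ^ 2 * r) (𝓝[>] 0) atTop)
    -- the dominant energy condition
    (dec : ∀ x : E, x ≠ 0 → momentumNorm (metric φ) h x ≤ energy (metric φ) h x)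
    -- `tr_S h` is constant on each centred sphere which is untrapped at all its points
    (cond : ∀ r : ℝ, 0 < r → (∀ w : E, ‖w‖ = 1 → |trS φ h (r • w)| ≤ sphereH φ r) →
      ConstOn (trS φ h) r) :
    Real.sqrt (separatingArea φ / (16 * Real.pi) + ∑ i, P i ^ 2) ≤ m := by
  obtain ⟨r₁, h1, h2⟩ := exists_neg hφ second
  have hp := hφ.pos r₁ h1
  have mom' : ∀ i, Tendsto (fun r => r ^ 2 * sphAvg (fun x => mixed h i x - qq h x * un i x) r / 2)
      atTop (𝓝 (P i)) := by
    intro i
    refine (mom i).congr' ?_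
    filter_upwards [eventually_gt_atTop 0] with r hr
    exact momentumFlux_eq hφ i hr
  have dec' : ∀ x : E, r₁ ≤ ‖x‖ → momentumNorm (metric φ) h x ≤ energy (metric φ) h x :=
    fun x hx => dec x (norm_pos_iff.1 (h1.trans_le hx))
  have trap : ∃ w : E, ‖w‖ = 1 ∧ sphereH φ r₁ ≤ |trS φ h (r₁ • w)| := by
    obtain ⟨w, hw⟩ := exists_norm_eq E (zero_le_one' ℝ)
    refine ⟨w, hw, le_trans ?_ (abs_nonneg _)⟩
    rw [sphereH_eq hφ h1]
    exact div_nonpos_of_nonpos_of_nonneg (by linarith) (by positivity)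
  obtain ⟨r₀, h3, h4⟩ := Pool.Agent.U980.PI.momentum_theorem hφ hh flat decay mom' h1 dec'
    (fun r hr hu => cond r (h1.trans_le hr) hu) trap
  obtain ⟨r₂, -, h6⟩ := peak_theorem hφ hh flat decay h1 dec'
    (fun r hr hu => Or.inl (cond r (h1.trans_le hr) hu)) trap
  have hm : 0 ≤ m := (Real.sqrt_nonneg _).trans h6
  have h5 : separatingArea φ ≤ sphereArea φ r₀ := by
    refine csInf_le ⟨0, ?_⟩ ⟨r₀, h1.trans_le h3, rfl⟩
    rintro _ ⟨r, _, rfl⟩
    unfold sphereArea
    positivity
  have hpi := Real.pi_pos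
  have hr0 : 0 < r₀ := h1.trans_le h3
  have hp0 := hφ.pos r₀ hr0
  have hpos : 0 < sphereArea φ r₀ / (16 * Real.pi) := by
    unfold sphereArea
    positivity
  have h7 : sphereArea φ r₀ / (16 * Real.pi) ≤ m ^ 2 - ∑ i, P i ^ 2 := by
    have h8 : 0 < Real.sqrt (m ^ 2 - ∑ i, P i ^ 2) := (Real.sqrt_pos.2 hpos).trans_le h4
    exact (Real.sqrt_le_sqrt_iff (Real.sqrt_pos.1 h8).le).1 h4
  have h9 : separatingArea φ / (16 * Real.pi) ≤ sphereArea φ r₀ / (16 * Real.pi) :=
    div_le_div_of_nonneg_right h5 (by positivity)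
  exact Real.sqrt_le_iff.2 ⟨hm, by linarith⟩

end Pool.Agent.Results.MP_ede089_mp.RestMassTwoEnds
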