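import Pool.Agent.U980.PI.Comb

/-!
# Two-ended initial data with a spherically symmetric metric and a second fundamental form without
# symmetry

Initial data `(g, h)` on `ℝ³ ∖ {0}` (two ends, at infinity and at the origin), `g = φ(|x|)⁴ δ`
spherically symmetric and `h` an arbitrary symmetric tensor field, WITHOUT any symmetry. Every
centred sphere `S` separates the ends. Suppose that the dominant energy condition holds and that on
each centred sphere with `|average of tr_S h| ≤ H_S`

* `a h(ν, ν) + b tr_S h` is constant for some `b > 0`, `0 ≤ a ≤ 4 b` (for instance `tr_g h` is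
  constant, `a = b = 1`: so the metric and the mean curvature `tr_g h` of the slice are spherically
  symmetric and the trace-free part of `h` is arbitrary; or `tr_S h` is constant, `a = 0`), or, more
  generally,
* the average over `S` of `(tr_g h)² - |h|²` is at most its value at the rotational average of `h`.

Then the Penrose inequality `m ≥ √(A / 16 π)` holds for the end at infinity, `m` its ADM energy and
`A` the infimum of the areas of the centred spheres (which is at least the infimum over all surfaces
separating the ends). By the inversion `x ↦ x / |x|²` the origin may be chosen as the special end.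
-/

set_option autoImplicit false

namespace Pool.Agent.Results.MP_ede089_mp.SphericalMetricAveraged

open Pool.Agent.K4H63.PI Filter Topology

/-- The infimum of the areas of the centred spheres, which separate the two ends. -/
noncomputable def separatingArea (φ : ℝ → ℝ) : ℝ := sInf (sphereArea φ '' Set.Ioi 0)

/-- The average of `F` over the centred sphere of radius `r`. -/
noncomputable def average (F : E → ℝ) (r : ℝ) : ℝ :=
  (4 * Real.pi)⁻¹ * ∫ ω, F (r • (ω : E)) ∂sph

theorem result (φ : ℝ → ℝ) (h : E → Matrix (Fin 3) (Fin 3) ℝ) (m : ℝ)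
    -- `φ` is positive and `C²` on `(0, ∞)`; `h` is symmetric and `C¹` on `ℝ³ ∖ {0}`
    (hφ : Good φ) (hh : Tensor h)
    -- the end at infinity is asymptotically flat with ADM energy `m`
    (flat : FlatEnd φ m) (decay : Decay h)
    -- the other end: the area radius tends to infinity at the origin
    (second : Tendsto (fun r => (φ r) ^ 2 * r) (𝓝[>] 0) atTop)
    -- the dominant energy condition
    (dec : ∀ x : E, x ≠ 0 → momentumNorm (metric φ) h x ≤ energy (metric φ) h x)
    -- the condition on the centred spheres
    (cond : ∀ r : ℝ, 0 < r → |average (trS φ h) r| ≤ sphereH φ r →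
      (∃ a b c : ℝ, 0 ≤ a ∧ 0 < b ∧ a ≤ 4 * b ∧ ∀ w : E, ‖w‖ = 1 →
        a * hNN φ h (r • w) + b * trS φ h (r • w) = c) ∨
      average (fun x => (trg (metric φ) h x) ^ 2 - nsq (metric φ) h x) r ≤
        2 * average (hNN φ h) r * average (trS φ h) r + (average (trS φ h) r) ^ 2 / 2) :
    Real.sqrt (separatingArea φ / (16 * Real.pi)) ≤ m := by
  obtain ⟨r₁, h1, h2⟩ := exists_neg hφ second
  have hp := hφ.pos r₁ h1
  obtain ⟨r₀, h3, h4⟩ := avg_theorem hφ hh flat decay h1
    (fun x hx => dec x (norm_pos_iff.1 (h1.trans_le hx)))
    (fun r hr hu => by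
      have hr0 : 0 < r := h1.trans_le hr
      rcases cond r hr0 hu with ⟨a, b, c, ha, hb, hab, hc⟩ | hc
      · exact Pool.Agent.U980.PI.avgCond_of_comb hφ hh hr0 ha hb hab ⟨c, hc⟩
      · exact hc)
    (by
      refine le_trans ?_ (abs_nonneg _)
      rw [sphereH_eq hφ h1]
      have : 2 * pp φ r₁ / ((φ r₁) ^ 2 * r₁) ≤ 0 :=
        div_nonpos_of_nonpos_of_nonneg (by linarith) (by positivity)
      exact this)
  have h5 : separatingArea φ ≤ sphereArea φ r₀ := by
    refine csInf_le ⟨0, ?_⟩ ⟨r₀, h1.trans_le h3, rfl⟩
    rintro _ ⟨r, _, rfl⟩
    unfold sphereArea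
    positivity
  have hpi := Real.pi_pos
  exact (Real.sqrt_le_sqrt (div_le_div_of_nonneg_right h5 (by positivity))).trans h4

end Pool.Agent.Results.MP_ede089_mp.SphericalMetricAveraged
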